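import Pool.Agent.helper78.EQ.Spec
import Pool.Agent.helper44.DM.ZG
import Pool.Agent.helper85.LD.G1

/-!
# Project EQ, module DTM: a zero forces a large Moebius sum
-/

set_option autoImplicit false

open Complex MeasureTheory Set Metric

namespace Pool.Agent.EQ

open Pool.Agent.helper6.LD

theorem h97_DTM_Ds {s : ℂ} (hs : 1 < s.re) : riemannZeta s * Ds cm s = 1 := by
  have h1 := LSeries_one_mul_Lseries_moebius hs
  rw [LSeries_one_eq_riemannZeta hs] at h1
  have h2 : Ds cm s = LSeries (fun n => ((ArithmeticFunction.moebius n : ℤ) : ℂ)) s := by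
    unfold Ds LSeries
    refine tsum_congr fun n => ?_
    unfold cm
    rcases Nat.eq_zero_or_pos n with hn | hn
    · subst hn
      simp
    · rw [LSeries.term_of_ne_zero hn.ne', cpow_neg, div_eq_mul_inv]
  rw [h2]
  exact h1

theorem h97_DTM_cm (n : ℕ) : ‖cm n‖ ≤ Real.sqrt n := by
  unfold cm
  rcases Nat.eq_zero_or_pos n with hn | hn
  · subst hn
    simp
  · have h1 : |ArithmeticFunction.moebius n| ≤ 1 := ArithmeticFunction.abs_moebius_le_one
    have h2 : ‖((ArithmeticFunction.moebius n : ℤ) : ℂ)‖ ≤ 1 := by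
      rw [Complex.norm_intCast]
      exact_mod_cast h1
    refine h2.trans ?_
    rw [Real.one_le_sqrt]
    exact_mod_cast hn

theorem h97_DTM_Gup : ∃ C : ℝ, 0 < C ∧ ∀ w : ℂ, 1 / 2 ≤ w.re → w.re ≤ 6 → |w.im| ≤ 4 →
    ‖Complex.Gamma w‖ ≤ C := by
  have hK : IsCompact ((Icc (1 / 2 : ℝ) 6) ×ℂ (Icc (-4 : ℝ) 4)) := isCompact_Icc.reProdIm isCompact_Icc
  have hc : ContinuousOn Complex.Gamma ((Icc (1 / 2 : ℝ) 6) ×ℂ (Icc (-4 : ℝ) 4)) := by
    intro w hw
    refine (Complex.differentiableAt_Gamma w ?_).continuousAt.continuousWithinAt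
    intro m h
    have h1 := hw.1.1
    rw [h] at h1
    simp at h1
    have : (0 : ℝ) ≤ m := Nat.cast_nonneg m
    linarith
  obtain ⟨C, hC⟩ := hK.exists_bound_of_continuousOn hc
  refine ⟨|C| + 1, by positivity, fun w h1 h2 h3 => ?_⟩
  refine (hC w ⟨⟨h1, h2⟩, abs_le.mp h3⟩).trans ?_
  linarith [le_abs_self C]

theorem h97_DTM_Glow : ∃ c : ℝ, 0 < c ∧ ∀ w : ℂ, 1 / 2 ≤ w.re → w.re ≤ 1 → |w.im| ≤ 1 →
    c ≤ ‖Complex.Gamma w‖ := by
  have hK : IsCompact ((Icc (1 / 2 : ℝ) 1) ×ℂ (Icc (-1 : ℝ) 1)) := isCompact_Icc.reProdIm isCompact_Icc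
  have hc : ContinuousOn (fun w => ‖Complex.Gamma w‖) ((Icc (1 / 2 : ℝ) 1) ×ℂ (Icc (-1 : ℝ) 1)) := by
    intro w hw
    refine (Complex.differentiableAt_Gamma w ?_).continuousAt.norm.continuousWithinAt
    intro m h
    have h1 := hw.1.1
    rw [h] at h1
    simp at h1
    have : (0 : ℝ) ≤ m := Nat.cast_nonneg m
    linarith
  have hne : ((Icc (1 / 2 : ℝ) 1) ×ℂ (Icc (-1 : ℝ) 1)).Nonempty := by
    refine ⟨1, ⟨⟨?_, ?_⟩, ⟨?_, ?_⟩⟩⟩ <;> (simp; try norm_num)
  obtain ⟨w₀, hw₀, hmin⟩ := hK.exists_isMinOn hne hc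
  refine ⟨‖Complex.Gamma w₀‖, ?_, fun w h1 h2 h3 => ?_⟩
  · refine norm_pos_iff.mpr (Complex.Gamma_ne_zero_of_re_pos ?_)
    have := hw₀.1.1
    linarith
  · exact hmin ⟨⟨h1, h2⟩, abs_le.mp h3⟩

/-- The final inequality. -/
theorem h97_DTM_fin {δ σ X K c₁ r₂ r₃ : ℝ} (hδ : 0 < δ) (hδ8 : δ ≤ 1 / 8) (hσ : 1 / 2 ≤ σ)
    (hσδ : σ + 2 * δ < 1) (hr₂ : r₂ = 3 - σ - 2 * δ) (hr₃ : r₃ = 3 - σ - δ) (hK1 : 1 ≤ K)
    (hKX : K ≤ X) (hX : 9 ≤ X) (hc₁ : 0 < c₁) (hKc : K / c₁ < X) :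
    (K * X ^ (-(40 / δ) / 2)) ^ (1 - Real.log (r₂ / 1) / Real.log (r₃ / 1)) *
      (X ^ (3 : ℕ)) ^ (Real.log (r₂ / 1) / Real.log (r₃ / 1)) < c₁ := by
  have hX0 : 0 < X := by linarith
  have hX1 : 1 ≤ X := by linarith
  have hr2 : 2 < r₂ := by rw [hr₂]; linarith
  have hr3 : r₂ < r₃ := by rw [hr₂, hr₃]; linarith
  have hr35 : r₃ ≤ 5 / 2 := by rw [hr₃]; linarith
  rw [div_one, div_one]
  set θ := Real.log r₂ / Real.log r₃ with hθ
  have hl3 : 0 < Real.log r₃ := Real.log_pos (by linarith)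
  have hl2 : 0 < Real.log r₂ := Real.log_pos (by linarith)
  have hl3' : Real.log r₃ ≤ 3 / 2 := by
    have := Real.log_le_sub_one_of_pos (show 0 < r₃ by linarith)
    linarith
  have hdiff : (2 / 5) * δ ≤ Real.log r₃ - Real.log r₂ := by
    rw [← Real.log_div (by linarith) (by linarith)]
    have h1 := Real.one_sub_inv_le_log_of_pos (show 0 < r₃ / r₂ from div_pos (by linarith) (by linarith))
    have h2 : 1 - (r₃ / r₂)⁻¹ = δ / r₃ := by
      rw [inv_div, hr₂, hr₃]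
      have : (3 - σ - δ) ≠ 0 := by linarith
      field_simp
      ring
    rw [h2] at h1
    refine le_trans ?_ h1
    rw [le_div_iff₀ (by linarith)]
    nlinarith
  have hθ1 : θ ≤ 1 - δ / 5 := by
    rw [hθ, div_le_iff₀ hl3]
    nlinarith
  have hθ0 : 0 ≤ θ := by positivity
  have hM1pos : 0 < K * X ^ (-(40 / δ) / 2) := by positivity
  have hM1le : K * X ^ (-(40 / δ) / 2) ≤ 1 := by
    have h1 : X ^ (-(40 / δ) / 2) ≤ X ^ (-1 : ℝ) := by
      apply Real.rpow_le_rpow_of_exponent_le hX1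
      have : 2 ≤ 40 / δ := by
        rw [le_div_iff₀ hδ]
        linarith
      linarith
    rw [Real.rpow_neg_one] at h1
    calc K * X ^ (-(40 / δ) / 2) ≤ X * X⁻¹ := by
          apply mul_le_mul hKX h1 (by positivity) hX0.le
      _ = 1 := mul_inv_cancel₀ hX0.ne'
  have e1 : (K * X ^ (-(40 / δ) / 2)) ^ (1 - θ) ≤ (K * X ^ (-(40 / δ) / 2)) ^ (δ / 5) :=
    Real.rpow_le_rpow_of_exponent_ge hM1pos hM1le (by linarith)
  have e2 : (K * X ^ (-(40 / δ) / 2)) ^ (δ / 5) ≤ K * X ^ (-4 : ℝ) := by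
    rw [Real.mul_rpow (by linarith) (by positivity), ← Real.rpow_mul hX0.le]
    have h3 : -(40 / δ) / 2 * (δ / 5) = -4 := by
      field_simp
      norm_num
    rw [h3]
    have h4 : K ^ (δ / 5) ≤ K ^ (1 : ℝ) := Real.rpow_le_rpow_of_exponent_le hK1 (by linarith)
    rw [Real.rpow_one] at h4
    exact mul_le_mul_of_nonneg_right h4 (by positivity)
  have e3 : (X ^ (3 : ℕ)) ^ θ ≤ X ^ (3 : ℕ) := by
    have h5 : (1 : ℝ) ≤ X ^ (3 : ℕ) := one_le_pow₀ hX1
    calc (X ^ (3 : ℕ)) ^ θ ≤ (X ^ (3 : ℕ)) ^ (1 : ℝ) :=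
          Real.rpow_le_rpow_of_exponent_le h5 (by linarith)
      _ = X ^ (3 : ℕ) := Real.rpow_one _
  calc (K * X ^ (-(40 / δ) / 2)) ^ (1 - θ) * (X ^ (3 : ℕ)) ^ θ
      ≤ (K * X ^ (-4 : ℝ)) * X ^ (3 : ℕ) := by
        apply mul_le_mul (e1.trans e2) e3 (by positivity) (by positivity)
    _ = K / X := by
        rw [mul_assoc, ← Real.rpow_natCast, ← Real.rpow_add hX0]
        norm_num
        rw [Real.rpow_neg_one, div_eq_mul_inv]
    _ < c₁ := by
        rw [div_lt_iff₀ hX0]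
        rw [div_lt_iff₀ hc₁] at hKc
        linarith

theorem DTM (hTHR : THR_stmt) (hGFA : GFA_stmt) (hGFM : GFM_stmt) : DTM_stmt := by
  intro δ hδ hδ8
  obtain ⟨Cg, hCg, hGFA⟩ := hGFA
  obtain ⟨Cm, hCm, hGFM⟩ := hGFM
  obtain ⟨Cz, hCz, hzg⟩ := zeta_growth
  obtain ⟨Cr, hCr, hzr⟩ := Pool.Agent.helper84.DM.zeta_right
  obtain ⟨CΓ, hCΓ, hGup⟩ := h97_DTM_Gup
  obtain ⟨cΓ, hcΓ, hGlow⟩ := h97_DTM_Glow
  set K1 : ℝ := Real.exp Cr * Cm + 1 with hK1
  set K3 : ℝ := 2 * Cz * (Cg + 1 / δ) + CΓ with hK3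
  have hK1' : 1 ≤ K1 := by
    rw [hK1]
    have : 0 < Real.exp Cr * Cm := by positivity
    linarith
  have hK3' : 0 < K3 := by positivity
  have hKc0 : 0 < K1 / cΓ := by positivity
  refine ⟨40 / δ, 9 + K1 + K3 + K1 / cΓ, ?_, by linarith, ?_⟩
  · rw [le_div_iff₀ hδ]
    linarith
  intro X σ t ρ hX hσ ht htX hρ hσρ hρt
  by_contra hno
  push Not at hno
  have hX9 : 9 ≤ X := by linarith
  have hX0 : 0 < X := by linarith
  have hX1 : 1 ≤ X := by linarith
  have hρ1 : ρ.re < 1 := by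
    by_contra h
    push Not at h
    exact riemannZeta_ne_zero_of_one_le_re h hρ
  set N : ℝ := X ^ (40 / δ) with hN
  have hN1 : 1 ≤ N := Real.one_le_rpow hX1 (by positivity)
  have hNh : N ^ (-(1 / 2 : ℝ)) = X ^ (-(40 / δ) / 2) := by
    rw [hN, ← Real.rpow_mul hX0.le]
    congr 1
    ring
  obtain ⟨hdiff, hGb⟩ := hGFA cm N t h97_DTM_cm hN1
  set c : ℂ := (3 : ℂ) + ((ρ.im - t : ℝ) : ℂ) * I with hc
  have hcre : c.re = 3 := by simp [hc]
  have hcim : c.im = ρ.im - t := by simp [hc]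
  set D : ℂ → ℂ := fun w => riemannZeta (w + t * I) * Gf cm N t w - Complex.Gamma w with hD
  set r₂ : ℝ := 3 - σ - 2 * δ with hr₂
  set r₃ : ℝ := 3 - σ - δ with hr₃
  have hball : ∀ w ∈ ball c r₃, σ + δ < w.re ∧ w.re < 6 ∧ |w.im| ≤ 4 ∧
      1 / 2 ≤ (w + t * I).re ∧ 1 ≤ (w + t * I).im ∧ ‖w + t * I‖ ≤ 2 * X := by
    intro w hw
    rw [mem_ball, dist_eq_norm] at hw
    have h1 : |w.re - 3| < r₃ := by
      have := Complex.abs_re_le_norm (w - c)
      rw [Complex.sub_re, hcre] at this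
      linarith
    have h2 : |w.im - (ρ.im - t)| < r₃ := by
      have := Complex.abs_im_le_norm (w - c)
      rw [Complex.sub_im, hcim] at this
      linarith
    rw [abs_lt] at h1 h2
    rw [abs_le] at hρt
    have h3 : (w + t * I).re = w.re := by simp
    have h4 : (w + t * I).im = w.im + t := by simp
    have hb : |w.im| ≤ 4 := by
      rw [abs_le]
      constructor <;> linarith [h2.1, h2.2, hρt.1, hρt.2, hδ]
    have hb' := abs_le.mp hb
    refine ⟨by linarith [h1.1], by linarith [h1.2], hb, by rw [h3]; linarith [h1.1],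
      by rw [h4]; linarith [hb'.1], ?_⟩
    refine (Complex.norm_le_abs_re_add_abs_im _).trans ?_
    rw [h3, h4, abs_of_pos (by linarith [h1.1]), abs_of_pos (by linarith [hb'.1])]
    have e1 : w.re < 11 / 2 := by linarith [h1.2]
    have e2 : w.im ≤ 7 / 2 := by linarith [h2.2, hρt.2]
    linarith
  have hDdiff : DifferentiableOn ℂ D (ball c r₃) := by
    intro w hw
    obtain ⟨h1, -, -, h4, h5, -⟩ := hball w hw
    refine DifferentiableAt.differentiableWithinAt ?_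
    refine DifferentiableAt.sub (DifferentiableAt.mul ?_ (hdiff w)) ?_
    · have hne : w + t * I ≠ 1 := by
        intro h
        rw [h] at h5
        simp at h5
        linarith
      have h6 : DifferentiableAt ℂ (fun w : ℂ => w + t * I) w := by fun_prop
      exact DifferentiableAt.comp w (differentiableAt_riemannZeta hne) h6
    · refine Complex.differentiableAt_Gamma w fun m h => ?_
      rw [h] at h1
      simp at h1
      have : (0 : ℝ) ≤ m := Nat.cast_nonneg m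
      linarith
  have hM1 : ∀ z ∈ closedBall c 1, ‖D z‖ ≤ K1 * X ^ (-(40 / δ) / 2) := by
    intro w hw
    rw [mem_closedBall, dist_eq_norm] at hw
    have h1 : |w.re - 3| ≤ 1 := by
      have := Complex.abs_re_le_norm (w - c)
      rw [Complex.sub_re, hcre] at this
      linarith
    rw [abs_le] at h1
    have h3 : (w + t * I).re = w.re := by simp
    have h4 : 1 < (w + t * I).re := by rw [h3]; linarith [h1.1]
    have h5 := h97_DTM_Ds h4
    have h6 := hGFM cm N t w h97_DTM_cm hN1 (by linarith [h1.1]) (by linarith [h1.2])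
    have h7 : D w = riemannZeta (w + t * I) *
        (Gf cm N t w - Complex.Gamma w * Ds cm (w + t * I)) := by
      have : riemannZeta (w + t * I) * (Gf cm N t w - Complex.Gamma w * Ds cm (w + t * I)) =
          riemannZeta (w + t * I) * Gf cm N t w -
            Complex.Gamma w * (riemannZeta (w + t * I) * Ds cm (w + t * I)) := by ring
      rw [this, h5, mul_one]
    rw [h7, norm_mul]
    have h8 := (hzr (w + t * I) (by rw [h3]; linarith [h1.1])).2
    rw [hNh] at h6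
    calc ‖riemannZeta (w + t * I)‖ * ‖Gf cm N t w - Complex.Gamma w * Ds cm (w + t * I)‖
        ≤ Real.exp Cr * (Cm * X ^ (-(40 / δ) / 2)) := by
          apply mul_le_mul h8 h6 (norm_nonneg _) (Real.exp_pos _).le
      _ = (Real.exp Cr * Cm) * X ^ (-(40 / δ) / 2) := by ring
      _ ≤ K1 * X ^ (-(40 / δ) / 2) := by
          apply mul_le_mul_of_nonneg_right _ (by positivity)
          rw [hK1]
          linarith
  have hM3 : ∀ z ∈ ball c r₃, ‖D z‖ ≤ X ^ (3 : ℕ) := by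
    intro w hw
    obtain ⟨h1, h2, h3, h4, h5, h6⟩ := hball w hw
    have g1 := hGb σ δ X w hσ hδ hX0.le (fun x hx1 hx2 => (hno x hx1 hx2).le) h1.le h2.le
    have g2 := hzg (w + t * I) (by linarith) (by rw [abs_of_pos (by linarith)]; exact h5)
    have g3 := hGup w (by linarith) h2.le h3
    have g4 : ‖riemannZeta (w + t * I)‖ ≤ Cz * (2 * X) :=
      g2.trans (mul_le_mul_of_nonneg_left h6 hCz.le)
    have g5 : ‖Gf cm N t w‖ ≤ (Cg + 1 / δ) * X := by
      refine g1.trans ?_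
      have : Cg * 1 ≤ Cg * X := mul_le_mul_of_nonneg_left hX1 hCg.le
      have e : (Cg + 1 / δ) * X = Cg * X + X / δ := by ring
      rw [e]
      linarith
    calc ‖D w‖ ≤ ‖riemannZeta (w + t * I) * Gf cm N t w‖ + ‖Complex.Gamma w‖ := norm_sub_le _ _
      _ ≤ (Cz * (2 * X)) * ((Cg + 1 / δ) * X) + CΓ := by
          rw [norm_mul]
          apply add_le_add _ g3
          apply mul_le_mul g4 g5 (norm_nonneg _) (by positivity)
      _ ≤ K3 * X ^ 2 := by
          rw [hK3]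
          have : CΓ * 1 ≤ CΓ * X ^ 2 := mul_le_mul_of_nonneg_left (one_le_pow₀ hX1) hCΓ.le
          nlinarith
      _ ≤ X * X ^ 2 := by
          apply mul_le_mul_of_nonneg_right _ (by positivity)
          linarith
      _ = X ^ (3 : ℕ) := by ring
  have hM1M3 : K1 * X ^ (-(40 / δ) / 2) ≤ X ^ (3 : ℕ) := by
    have h1 : X ^ (-(40 / δ) / 2) ≤ 1 := by
      apply Real.rpow_le_one_of_one_le_of_nonpos hX1
      have : 0 < 40 / δ := by positivity
      linarith
    calc K1 * X ^ (-(40 / δ) / 2) ≤ X * 1 := by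
          apply mul_le_mul _ h1 (by positivity) hX0.le
          linarith
      _ ≤ X ^ (3 : ℕ) := by
          rw [mul_one]
          exact le_self_pow₀ hX1 (by norm_num)
  have hw₀ : ρ - t * I ∈ closedBall c r₂ := by
    rw [mem_closedBall, dist_eq_norm]
    have e : ρ - t * I - c = ((ρ.re - 3 : ℝ) : ℂ) := by
      apply Complex.ext
      · simp [hcre]
      · simp [hcim]
    rw [e, Complex.norm_real, Real.norm_eq_abs, abs_of_neg (by linarith)]
    rw [hr₂]
    linarith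
  have key := hTHR D c 1 r₂ r₃ (K1 * X ^ (-(40 / δ) / 2)) (X ^ (3 : ℕ)) one_pos
    (by rw [hr₂]; linarith) (by rw [hr₂, hr₃]; linarith) (by positivity) hM1M3 hDdiff hM1 hM3
    (ρ - t * I) hw₀
  have hlt := h97_DTM_fin (K := K1) (c₁ := cΓ) (X := X) hδ hδ8 hσ (by linarith) hr₂ hr₃ hK1'
    (by linarith) hX9 hcΓ (by linarith)
  have hDw : D (ρ - t * I) = - Complex.Gamma (ρ - t * I) := by
    simp only [hD]
    rw [sub_add_cancel, hρ]
    ring
  rw [hDw, norm_neg] at key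
  have hlow := hGlow (ρ - t * I) (by simp; linarith) (by simp; linarith) (by simpa using hρt)
  exact absurd (hlow.trans key) (not_le.mpr hlt)

end Pool.Agent.EQ
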